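import Pool.Agent.H29.R2.Targets2

/-!
# (MEN) the mean of the squares of the coefficients is positive
-/

set_option autoImplicit false

open NumberField Complex Filter Topology

namespace Pool.Agent.H33.R2

open Pool.Agent.H29.R2 Pool.Agent.H28.RC Pool.Agent.H25.HK Pool.Agent.H25 Pool.Agent.H29.RT
  Pool.Agent.H29.RS

/-- the quadratic form as a sum of squares -/
theorem quad_eq {k : ℕ} (A : Fin k → Prop) [DecidablePred A] (τ : Fin k → ℝ) (x : Fin k → ℂ) :
    (∑ i, ∑ j, if A i ∧ A j ∧ τ i = τ j then (x i * (starRingEnd ℂ) (x j)).re else 0) =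
      ∑ t ∈ Finset.univ.image τ, ‖∑ i, if A i ∧ τ i = t then x i else 0‖ ^ 2 := by
  have h1 : ∀ t ∈ Finset.univ.image τ, ‖∑ i, if A i ∧ τ i = t then x i else 0‖ ^ 2 =
      ∑ i, ∑ j, (if A i ∧ τ i = t then (if A j ∧ τ j = t then (x i * (starRingEnd ℂ) (x j)).re
        else 0) else 0) := by
    intro t _
    have h2 : ((‖∑ i, if A i ∧ τ i = t then x i else 0‖ ^ 2 : ℝ)) =
        ((∑ i, if A i ∧ τ i = t then x i else 0) *
          (starRingEnd ℂ) (∑ i, if A i ∧ τ i = t then x i else 0)).re := by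
      rw [Complex.mul_conj, Complex.normSq_eq_norm_sq, Complex.ofReal_re]
    rw [h2, map_sum, Finset.sum_mul_sum]
    simp only [Complex.re_sum]
    refine Finset.sum_congr rfl fun i _ => Finset.sum_congr rfl fun j _ => ?_
    split_ifs <;> simp
  symm
  rw [Finset.sum_congr rfl h1, Finset.sum_comm]
  refine Finset.sum_congr rfl fun i _ => ?_
  rw [Finset.sum_comm]
  refine Finset.sum_congr rfl fun j _ => ?_
  rw [Finset.sum_eq_single (τ i)]
  · symm
    by_cases h3 : A i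
    · by_cases h4 : A j
      · by_cases h5 : τ i = τ j
        · rw [if_pos ⟨h3, h4, h5⟩, if_pos ⟨h3, rfl⟩, if_pos ⟨h4, h5.symm⟩]
        · rw [if_neg (fun h => h5 h.2.2), if_pos ⟨h3, rfl⟩, if_neg (fun h => h5 h.2.symm)]
      · rw [if_neg (fun h => h4 h.2.1), if_pos ⟨h3, rfl⟩, if_neg (fun h => h4 h.1)]
    · rw [if_neg (fun h => h3 h.1), if_neg (fun h => h3 h.1)]
  · intro t _ ht
    rw [if_neg (fun h => ht h.2.symm)]
  · intro h3
    exact absurd (Finset.mem_image_of_mem _ (Finset.mem_univ i)) h3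

open scoped Classical in
theorem en_pos {k : ℕ} (R : GFam k) (a : Fin k → ℕ) (τ : Fin k → ℝ) (c : Fin k → ℤ) (v : ℕ)
    (h : ∃ (t : ℝ) (g : R.K ≃ₐ[ℚ] R.K),
      ∑ i, (if a i = v ∧ τ i = t then (c i : ℂ) * R.chi i g else 0) ≠ 0) :
    0 < R.en a τ c v := by
  obtain ⟨t, g, hg⟩ := h
  have : Fintype (R.K ≃ₐ[ℚ] R.K) := Fintype.ofFinite _
  unfold GFam.en
  have hq : ∀ g : R.K ≃ₐ[ℚ] R.K, (∑ i, ∑ j, if a i = v ∧ a j = v ∧ τ i = τ j then
      (c i : ℝ) * c j * (R.chi i g * (starRingEnd ℂ) (R.chi j g)).re else 0) =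
      ∑ t ∈ Finset.univ.image τ, ‖∑ i, if a i = v ∧ τ i = t then (c i : ℂ) * R.chi i g
        else 0‖ ^ 2 := by
    intro g
    rw [← quad_eq (fun i => a i = v) τ (fun i => (c i : ℂ) * R.chi i g)]
    refine Finset.sum_congr rfl fun i _ => Finset.sum_congr rfl fun j _ => ?_
    by_cases h3 : a i = v ∧ a j = v ∧ τ i = τ j
    · rw [if_pos h3, if_pos h3]
      have h4 : (c i : ℂ) * R.chi i g * (starRingEnd ℂ) ((c j : ℂ) * R.chi j g) =
          (((c i : ℝ) * c j : ℝ) : ℂ) * (R.chi i g * (starRingEnd ℂ) (R.chi j g)) := by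
        rw [map_mul, map_intCast]
        push_cast
        ring
      rw [h4, Complex.re_ofReal_mul]
    · rw [if_neg h3, if_neg h3]
  refine div_pos ?_ (by exact_mod_cast Nat.card_pos)
  rw [finsum_eq_sum_of_fintype]
  refine Finset.sum_pos' (fun x _ => ?_) ⟨g, Finset.mem_univ _, ?_⟩
  · rw [hq]
    exact Finset.sum_nonneg fun _ _ => by positivity
  · rw [hq]
    refine Finset.sum_pos' (fun _ _ => by positivity) ⟨t, ?_, ?_⟩
    · obtain ⟨i, _, hi⟩ := Finset.exists_ne_zero_of_sum_ne_zero hg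
      have h5 : a i = v ∧ τ i = t := by
        by_contra h6
        rw [if_neg h6] at hi
        exact hi rfl
      exact Finset.mem_image.2 ⟨i, Finset.mem_univ _, h5.2⟩
    · have := norm_pos_iff.2 hg
      positivity

/-- (MEN) -/
theorem pf_MEN (h : T_MNG) : T_MEN := by
  intro k R a τ c X r hX hnd
  classical
  set a' : Fin k → ℕ := fun i => if a i = r then 1 else 0 with ha'
  have ha1 : ∀ i, a' i = 1 ↔ a i = r := by
    intro i
    by_cases h1 : a i = r <;> simp [ha', h1]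
  refine ⟨R.en a' τ c 1, en_pos R a' τ c 1 ?_, ?_⟩
  · obtain ⟨t, g, hg⟩ := hnd
    refine ⟨t, g, fun h0 => hg (Eq.trans (Finset.sum_congr rfl fun i _ => ?_) h0)⟩
    by_cases h1 : a i = r ∧ τ i = t
    · rw [if_pos h1, if_pos ⟨(ha1 i).2 h1.1, h1.2⟩]
    · rw [if_neg h1, if_neg (fun h2 => h1 ⟨(ha1 i).1 h2.1, h2.2⟩)]
  · have h1 := h k R a' τ c 1 1 X le_rfl hX
    have e2 : R.en a' τ c 1 / ((1 : ℕ) : ℝ) ^ 2 = R.en a' τ c 1 := by simp
    rw [e2] at h1
    refine (congrArg (fun w => Mean w (R.en a' τ c 1)) ?_).mp h1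
    funext p
    rw [Nat.cast_one, div_one]
    unfold cb
    congr 2
    refine Finset.sum_congr rfl fun i _ => ?_
    by_cases h1 : a i = r
    · rw [if_pos h1, if_pos ((ha1 i).2 h1)]
    · rw [if_neg h1, if_neg (fun h2 => h1 ((ha1 i).1 h2))]

end Pool.Agent.H33.R2
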