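import Pool.Agent.H29.R2.Targets2

/-!
# (NSA) many primes with a non-zero coefficient
-/

set_option autoImplicit false

open NumberField Complex Filter Topology

namespace Pool.Agent.H33.R2

open Pool.Agent.H29.R2 Pool.Agent.H28.RC Pool.Agent.H25.HK Pool.Agent.H25 Pool.Agent.H29.RT
  Pool.Agent.H29.RS

/-- the traces of the Frobenius elements are bounded -/
theorem trace_bdd {k : ℕ} (R : GFam k) (X : Fin k → ℕ → ℂ) (hX : R.Tr X) (i : Fin k) :
    ∃ C : ℝ, ∀ p : Nat.Primes, ‖X i p‖ ≤ C := by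
  set Φ : ((R.rep i).K ≃ₐ[ℚ] (R.rep i).K) → Subgroup ((R.rep i).K ≃ₐ[ℚ] (R.rep i).K) → ℂ :=
    fun g S => LinearMap.trace ℂ (R.rep i).V ((R.rep i).rho g * (R.rep i).avg S) with hΦ
  have hfin : (Set.range fun x : ((R.rep i).K ≃ₐ[ℚ] (R.rep i).K) ×
      Subgroup ((R.rep i).K ≃ₐ[ℚ] (R.rep i).K) => ‖Φ x.1 x.2‖).Finite := Set.finite_range _
  obtain ⟨C, hC⟩ := hfin.bddAbove
  refine ⟨C, fun p => ?_⟩
  rw [hX i p]
  exact hC ⟨((R.rep i).Fr p, (R.rep i).In p), rfl⟩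

theorem norm_cpow_tau (p : Nat.Primes) (x : ℝ) : ‖((p : ℕ) : ℂ) ^ (-(x * I) : ℂ)‖ = 1 := by
  have h1 : ((p : ℕ) : ℂ) = (((p : ℕ) : ℝ) : ℂ) := by simp
  have h2 : (0 : ℝ) < ((p : ℕ) : ℝ) := by exact_mod_cast p.2.pos
  rw [h1, Complex.norm_cpow_eq_rpow_re_of_pos h2]
  simp

theorem cb_bdd {k : ℕ} (R : GFam k) (a τ : Fin k → ℝ) (c : Fin k → ℤ) (X : Fin k → ℕ → ℂ) (r : ℝ)
    (hX : R.Tr X) : ∃ C : ℝ, 0 ≤ C ∧ ∀ p : Nat.Primes, ‖cb a τ c X r p‖ ≤ C := by
  choose C hC using trace_bdd R X hX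
  refine ⟨∑ i, |(c i : ℝ)| * |C i|, Finset.sum_nonneg fun _ _ => by positivity, fun p => ?_⟩
  unfold cb
  refine (norm_sum_le _ _).trans (Finset.sum_le_sum fun i _ => ?_)
  split_ifs
  · rw [norm_mul, norm_cpow_tau, mul_one, norm_mul, Complex.norm_intCast]
    exact mul_le_mul_of_nonneg_left ((hC i p).trans (le_abs_self _)) (abs_nonneg _)
  · rw [norm_zero]
    positivity

/-- (NSA) -/
theorem pf_NSA (h : T_MEN) : T_NSA := by
  intro k R a τ c X r hX hnd hs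
  classical
  obtain ⟨α, hα, hmean⟩ := h k R a τ c X r hX hnd
  obtain ⟨C, hC0, hC⟩ := cb_bdd R a τ c X r hX
  have h1 := hmean 2 (by norm_num)
  have hs1 : Summable (Set.indicator {p : ℕ | p.Prime ∧ cb a τ c X r p ≠ 0}
      (fun p : ℕ => (1 : ℝ) / (p : ℝ))) := by
    rw [← summable_subtype_iff_indicator]
    exact hs
  have hs2 : Summable (fun p : Nat.Primes => C ^ 2 * Set.indicator
      {p : ℕ | p.Prime ∧ cb a τ c X r p ≠ 0} (fun p : ℕ => (1 : ℝ) / (p : ℝ)) (p : ℕ)) :=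
    (hs1.comp_injective (i := fun p : Nat.Primes => (p : ℕ)) Subtype.val_injective).mul_left _
  have h2 : Tendsto (fun L : ℝ => ∑' p : Nat.Primes, ‖cb a τ c X r p‖ ^ 2 *
      (((p : ℕ) : ℝ) ^ (-(1 + ((2 : ℕ) : ℝ) / L) : ℝ) - ((p : ℕ) : ℝ) ^ (-(1 + 1 / L) : ℝ)))
      atTop (𝓝 (∑' _ : Nat.Primes, (0 : ℝ))) := by
    refine tendsto_tsum_of_dominated_convergence hs2 (fun p => ?_) ?_
    · have hp : (0 : ℝ) < ((p : ℕ) : ℝ) := by exact_mod_cast p.2.pos
      have ht : ∀ c : ℝ, Tendsto (fun L : ℝ => ((p : ℕ) : ℝ) ^ (-(1 + c / L) : ℝ)) atTop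
          (𝓝 (((p : ℕ) : ℝ) ^ (-1 : ℝ))) := by
        intro c
        have h3 : Tendsto (fun L : ℝ => -(1 + c / L)) atTop (𝓝 (-(1 + 0))) :=
          ((tendsto_const_nhds.div_atTop tendsto_id).const_add 1).neg
        rw [add_zero] at h3
        exact (Real.continuousAt_const_rpow hp.ne').tendsto.comp h3
      have h4 := ((ht ((2 : ℕ) : ℝ)).sub (ht 1)).const_mul (‖cb a τ c X r p‖ ^ 2)
      rw [sub_self, mul_zero] at h4
      exact h4
    · filter_upwards [eventually_gt_atTop 0] with L hL p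
      have hp : (1 : ℝ) ≤ ((p : ℕ) : ℝ) := by exact_mod_cast p.2.one_le
      by_cases h3 : cb a τ c X r p = 0
      · rw [h3]
        simp only [norm_zero, ne_eq, OfNat.ofNat_ne_zero, not_false_eq_true, zero_pow, zero_mul]
        refine mul_nonneg (by positivity) (Set.indicator_nonneg (fun _ _ => by positivity) _)
      · rw [Set.indicator_of_mem (show (p : ℕ) ∈ {p : ℕ | p.Prime ∧ cb a τ c X r p ≠ 0} from
          ⟨p.2, h3⟩), norm_mul, norm_pow, norm_norm]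
        refine mul_le_mul (pow_le_pow_left₀ (norm_nonneg _) (hC p) 2) ?_ (norm_nonneg _)
          (by positivity)
        have h5 : ((p : ℕ) : ℝ) ^ (-(1 + ((2 : ℕ) : ℝ) / L) : ℝ) ≤
            ((p : ℕ) : ℝ) ^ (-(1 + 1 / L) : ℝ) := by
          refine Real.rpow_le_rpow_of_exponent_le hp ?_
          have : 1 / L ≤ ((2 : ℕ) : ℝ) / L := by
            gcongr
            norm_num
          linarith
        have h6 : ((p : ℕ) : ℝ) ^ (-(1 + 1 / L) : ℝ) ≤ 1 / ((p : ℕ) : ℝ) := by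
          have h8 : 1 / ((p : ℕ) : ℝ) = ((p : ℕ) : ℝ) ^ (-1 : ℝ) := by
            rw [Real.rpow_neg_one, one_div]
          rw [h8]
          refine Real.rpow_le_rpow_of_exponent_le hp ?_
          have : 0 ≤ 1 / L := by positivity
          linarith
        have h7 : 0 ≤ ((p : ℕ) : ℝ) ^ (-(1 + ((2 : ℕ) : ℝ) / L) : ℝ) :=
          Real.rpow_nonneg (by linarith) _
        rw [Real.norm_eq_abs, abs_sub_comm, abs_of_nonneg (by linarith)]
        linarith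
  rw [tsum_zero] at h2
  have h3 := tendsto_nhds_unique h1 h2
  have h4 : 0 < Real.log ((2 : ℕ) : ℝ) := Real.log_pos (by norm_num)
  have h5 : 0 < α * Real.log ((2 : ℕ) : ℝ) := mul_pos hα h4
  linarith

end Pool.Agent.H33.R2
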