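import Pool.Agent.H29.R2.Targets

/-!
# (LIM) the logarithm at the line `Re s = 1`
-/

set_option autoImplicit false

open NumberField Complex Filter Topology

namespace Pool.Agent.H33.R2

open Pool.Agent.H29.R2

/-- a continuous logarithm of a function with a nonzero limit has a limit -/
theorem lim_log {f : ℝ → ℂ} {w : ℂ} (hc : ContinuousOn f (Set.Ioi 0)) (hw : w ≠ 0)
    (h : Tendsto (fun σ => cexp (f σ)) (𝓝[>] 0) (𝓝 w)) :
    ∃ l : ℂ, Tendsto f (𝓝[>] 0) (𝓝 l) := by
  have hg : Tendsto (fun σ => cexp (f σ - log w)) (𝓝[>] 0) (𝓝 1) := by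
    have h1 := h.div_const w
    rw [div_self hw] at h1
    refine h1.congr fun σ => ?_
    rw [Complex.exp_sub, Complex.exp_log hw]
  have hev : ∀ᶠ σ in 𝓝[>] (0 : ℝ), cexp (f σ - log w) ∈ Metric.ball (1 : ℂ) 1 :=
    hg.eventually (Metric.ball_mem_nhds _ one_pos)
  rw [eventually_nhdsWithin_iff, Metric.eventually_nhds_iff] at hev
  obtain ⟨δ, hδ, hball⟩ := hev
  have hslit : ∀ σ ∈ Set.Ioo (0 : ℝ) δ, cexp (f σ - log w) ∈ slitPlane := by
    intro σ hσ
    have h1 : dist σ 0 < δ := by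
      rw [Real.dist_eq, sub_zero, abs_of_pos hσ.1]
      exact hσ.2
    exact Complex.ball_one_subset_slitPlane (hball h1 hσ.1)
  have hq : ∀ σ ∈ Set.Ioo (0 : ℝ) δ, ∃ n : ℤ,
      f σ - log w - log (cexp (f σ - log w)) = n * (2 * Real.pi * I) := by
    intro σ _
    refine Complex.exp_eq_one_iff.1 ?_
    rw [Complex.exp_sub _ (log _), Complex.exp_log (Complex.exp_ne_zero _),
      div_self (Complex.exp_ne_zero _)]
  classical
  choose! n hn using hq
  have hcf : ContinuousOn (fun σ => f σ - log w) (Set.Ioo 0 δ) :=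
    (hc.mono fun σ hσ => hσ.1).sub continuousOn_const
  have hcq : ContinuousOn (fun σ => f σ - log w - log (cexp (f σ - log w))) (Set.Ioo 0 δ) :=
    hcf.sub (hcf.cexp.clog hslit)
  have hni : ContinuousOn (fun σ => ((n σ : ℤ) : ℝ)) (Set.Ioo 0 δ) := by
    have h1 : ContinuousOn (fun σ => ((f σ - log w - log (cexp (f σ - log w))) /
        (2 * Real.pi * I)).re) (Set.Ioo 0 δ) :=
      Complex.continuous_re.comp_continuousOn (hcq.div_const _)
    refine h1.congr fun σ hσ => ?_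
    simp only
    rw [hn σ hσ, mul_div_assoc, div_self Complex.two_pi_I_ne_zero, mul_one]
    simp
  have hnc : ContinuousOn n (Set.Ioo 0 δ) :=
    (Int.isClosedEmbedding_coe_real.isEmbedding.isInducing.continuousOn_iff).2 hni
  have hcst : ∀ σ ∈ Set.Ioo (0 : ℝ) δ, n σ = n (δ / 2) := fun σ hσ =>
    isPreconnected_Ioo.constant hnc hσ ⟨by positivity, by linarith⟩
  refine ⟨log w + log 1 + n (δ / 2) * (2 * Real.pi * I), ?_⟩
  have hl : Tendsto (fun σ => log w + log (cexp (f σ - log w)) + n (δ / 2) * (2 * Real.pi * I))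
      (𝓝[>] 0) (𝓝 (log w + log 1 + n (δ / 2) * (2 * Real.pi * I))) :=
    ((hg.clog (by simp)).const_add _).add_const _
  refine hl.congr' ?_
  filter_upwards [Ioo_mem_nhdsGT hδ] with σ hσ
  rw [← hcst σ hσ, ← hn σ hσ]
  ring

/-- (LIM) -/
theorem pf_LIM (h : T_PAN) : T_LIM := by
  intro e C he H t k hH hH0 hHe
  obtain ⟨h1, h2, _⟩ := h e C he
  have hp : ∀ σ : ℝ, (1 + (t : ℂ) * I + σ).re = 1 + σ := by intro σ; simp
  have hm : Tendsto (fun σ : ℝ => (1 + t * I + σ : ℂ)) (𝓝[>] 0) (𝓝 (1 + t * I)) := by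
    have h2 : Continuous (fun σ : ℝ => (1 + t * I + σ : ℂ)) := by fun_prop
    have h3 := h2.tendsto 0
    simp only [Complex.ofReal_zero, add_zero] at h3
    exact h3.mono_left nhdsWithin_le_nhds
  have hmc : Continuous (fun σ : ℝ => (1 + t * I + σ : ℂ)) := by fun_prop
  have hc1 : ContinuousOn (fun σ : ℝ => P1 e (1 + t * I + σ)) (Set.Ioi 0) := by
    intro σ hσ
    have h3 : ContinuousAt (P1 e) (1 + t * I + σ) :=
      (h1 _ (by rw [hp]; linarith [Set.mem_Ioi.1 hσ])).2.continuousAt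
    exact (ContinuousAt.comp (f := fun σ : ℝ => (1 + t * I + σ : ℂ)) h3
      hmc.continuousAt).continuousWithinAt
  have hc2 : ContinuousOn (fun σ : ℝ => P2 e (1 + t * I + σ)) (Set.Ioi 0) := by
    intro σ hσ
    have h3 : ContinuousAt (P2 e) (1 + t * I + σ) :=
      (h2 _ (by rw [hp]; linarith [Set.mem_Ioi.1 hσ])).continuousAt
    exact (ContinuousAt.comp (f := fun σ : ℝ => (1 + t * I + σ : ℂ)) h3
      hmc.continuousAt).continuousWithinAt
  have hc3 : ContinuousOn (fun σ : ℝ => (k : ℂ) * (Real.log σ : ℂ)) (Set.Ioi 0) := by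
    intro σ hσ
    have h3 : ContinuousAt Real.log σ := Real.continuousAt_log (ne_of_gt hσ)
    exact (continuousAt_const.mul (Complex.continuous_ofReal.continuousAt.comp
      h3)).continuousWithinAt
  have hexp : Tendsto (fun σ : ℝ => cexp (P1 e (1 + t * I + σ) + P2 e (1 + t * I + σ) +
      k * (Real.log σ : ℂ))) (𝓝[>] 0) (𝓝 (H (1 + t * I))) := by
    refine (hH.tendsto.comp hm).congr' ?_
    filter_upwards [self_mem_nhdsWithin] with σ hσ
    have hσ' : (0 : ℝ) < σ := hσ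
    show H (1 + t * I + σ) = _
    rw [hHe _ (by rw [hp]; linarith), add_sub_cancel_left, Complex.exp_add _ ((k : ℂ) * _),
      Complex.exp_nat_mul, ← Complex.ofReal_exp, Real.exp_log hσ', mul_comm]
  obtain ⟨l, hl⟩ := lim_log ((hc1.add hc2).add hc3) hH0 hexp
  refine ⟨l - P2 e (1 + t * I), ?_⟩
  have h3 : Tendsto (fun σ : ℝ => P2 e (1 + t * I + σ)) (𝓝[>] 0) (𝓝 (P2 e (1 + t * I))) :=
    (h2 _ (by simp; norm_num)).continuousAt.tendsto.comp hm
  refine (hl.sub h3).congr fun σ => ?_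
  simp only [Pi.add_apply]
  ring

end Pool.Agent.H33.R2
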