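import Pool.Agent.H29.R2.Targets

/-!
# (LNV) no zeros on the line `Re s = 1`
-/

set_option autoImplicit false

open NumberField Complex Filter Topology

namespace Pool.Agent.H33.R2

open Pool.Agent.H29.R2 Pool.Agent.H28.RC Pool.Agent.H25.HK Pool.Agent.H25

/-- a function which is continuous at `1 + it` and vanishes for `Re s > 1` vanishes there -/
theorem eq_zero_line {f : ℂ → ℂ} {t : ℝ} (hc : ContinuousAt f (1 + t * I))
    (h0 : ∀ s : ℂ, 1 < s.re → f s = 0) : f (1 + t * I) = 0 := by
  have h1 : Tendsto (fun σ : ℝ => (1 + t * I + σ : ℂ)) (𝓝[>] 0) (𝓝 (1 + t * I)) := by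
    have h2 : Continuous (fun σ : ℝ => (1 + t * I + σ : ℂ)) := by fun_prop
    have h3 := h2.tendsto 0
    simp only [Complex.ofReal_zero, add_zero] at h3
    exact h3.mono_left nhdsWithin_le_nhds
  have h4 : Tendsto (fun σ : ℝ => f (1 + t * I + σ : ℂ)) (𝓝[>] 0) (𝓝 (f (1 + t * I))) :=
    hc.tendsto.comp h1
  have h5 : Tendsto (fun σ : ℝ => f (1 + t * I + σ : ℂ)) (𝓝[>] 0) (𝓝 0) := by
    refine tendsto_const_nhds.congr' ?_
    filter_upwards [self_mem_nhdsWithin] with σ hσ
    rw [h0]
    simpa using hσ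
  exact tendsto_nhds_unique h4 h5

/-- (LNV) -/
theorem pf_LNV (h1 : T_IDX) (h2 : T_RCX) (h3 : T_RCT) (h4 : T_CNN) (h5 : T_CNZ) (h6 : T_ELO)
    (h7 : T_PAN) (h8 : T_PLN) : T_LNV := by
  intro R H lam hlam
  obtain ⟨n, N, hn, hlj, hsum⟩ := h1 (R.K ≃ₐ[ℚ] R.K) H lam hlam
  obtain ⟨m, rfl⟩ : ∃ m, n = m + 2 := ⟨n - 2, by omega⟩
  have e0 : lam ^ 0 = 1 := by
    ext x
    simp
  have e1 : lam ^ 1 = lam := by
    ext x
    simp
  have hχ : ∀ j : Fin (m + 1), ∃ (χ : RCC (IntermediateField.fixedField H)) (B : Finset ℕ)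
      (G : ℂ → ℂ), (∀ p : Nat.Primes, (p : ℕ) ∉ B → ∀ k : ℕ, 1 ≤ k →
        sp χ p k = indc H (lam ^ ((j : ℕ) + 1)) (R.Fr p ^ k)) ∧
      (∀ s : ℂ, 0 < s.re → DifferentiableAt ℂ G s) ∧ (∀ s : ℂ, 1 < s.re → G s = Lc χ s) := by
    intro j
    obtain ⟨χ, B, hI, hB⟩ := h2 R H (lam ^ ((j : ℕ) + 1)) (hlj _ (by omega) (by omega))
    obtain ⟨G, hG1, hG2⟩ := h4 _ χ hI
    exact ⟨χ, B, G, hB, hG1, hG2⟩
  choose χ B G hB hGd hG using hχ
  obtain ⟨BF, hBF⟩ := h3 R H
  obtain ⟨BE, hBE⟩ := h3 R N
  obtain ⟨HF, hFd, hF, _⟩ := h5 (IntermediateField.fixedField H)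
  obtain ⟨HE, hEd, hE, hE0⟩ := h5 (IntermediateField.fixedField N)
  -- the family of coefficient functions
  set C : ℝ := (Module.finrank ℚ (IntermediateField.fixedField H) : ℝ) +
    Module.finrank ℚ (IntermediateField.fixedField N) with hC
  let e' : Option (Option (Fin (m + 1))) → Nat.Primes → ℕ → ℂ := fun i => match i with
    | none => sp (triv (IntermediateField.fixedField N))
    | some none => sp (triv (IntermediateField.fixedField H))
    | some (some j) => sp (χ j)
  let c' : Option (Option (Fin (m + 1))) → ℂ := fun i => match i with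
    | none => -1
    | some none => 1
    | some (some _) => 1
  have he' : ∀ i p k, ‖e' i p k‖ ≤ C := by
    intro i p k
    have a1 : (0 : ℝ) ≤ (Module.finrank ℚ (IntermediateField.fixedField H) : ℝ) := Nat.cast_nonneg _
    have a2 : (0 : ℝ) ≤ (Module.finrank ℚ (IntermediateField.fixedField N) : ℝ) := Nat.cast_nonneg _
    match i with
    | none => exact ((h6 (IntermediateField.fixedField N) (triv (IntermediateField.fixedField N))).1 p k).trans (by rw [hC]; linarith)
    | some none => exact ((h6 (IntermediateField.fixedField H) (triv (IntermediateField.fixedField H))).1 p k).trans (by rw [hC]; linarith)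
    | some (some j) => exact ((h6 (IntermediateField.fixedField H) (χ j)).1 p k).trans (by rw [hC]; linarith)
  set e : Nat.Primes → ℕ → ℂ := fun p k => ∑ i, c' i * e' i p k with he
  have hexp : ∀ p k, e p k = -sp (triv (IntermediateField.fixedField N)) p k + (sp (triv (IntermediateField.fixedField H)) p k + ∑ j, sp (χ j) p k) := by
    intro p k
    rw [he]
    simp only [Fintype.sum_option]
    simp [e', c']
  obtain ⟨hP1, hP2⟩ := h8 _ e' c' C he'
  have hbd : ∀ p k, ‖e p k‖ ≤ ∑ i, ‖c' i‖ * C := by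
    intro p k
    rw [he]
    refine (norm_sum_le _ _).trans (Finset.sum_le_sum fun i _ => ?_)
    rw [norm_mul]
    exact mul_le_mul_of_nonneg_left (he' i p k) (norm_nonneg _)
  obtain ⟨_, hP2d, hP1e⟩ := h7 e _ hbd
  have hent : Differentiable ℂ (P1 e) := by
    refine hP1e (BF ∪ BE ∪ Finset.univ.biUnion B) fun p hp => ?_
    simp only [Finset.mem_union, Finset.mem_biUnion, Finset.mem_univ, true_and, not_or,
      not_exists] at hp
    rw [hexp, hBE p hp.1.2 1 le_rfl, hBF p hp.1.1 1 le_rfl,
      Finset.sum_congr rfl fun j _ => hB j p (hp.2 j) 1 le_rfl]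
    have h9 := hsum (R.Fr p ^ 1)
    rw [Finset.sum_range_succ', e0, Finset.sum_range] at h9
    rw [← h9]
    ring
  -- the identity for Re s > 1
  have hid : ∀ s : ℂ, 1 < s.re → (∏ j, G j s) * HF s - HE s * cexp (P1 e s + P2 e s) = 0 := by
    intro s hs
    have hs2 : 1 / 2 < s.re := by linarith
    have q1 : P1 e s + P2 e s = -(P1 (sp (triv (IntermediateField.fixedField N))) s + P2 (sp (triv (IntermediateField.fixedField N))) s) +
        ((P1 (sp (triv (IntermediateField.fixedField H))) s + P2 (sp (triv (IntermediateField.fixedField H))) s) +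
          ∑ j, (P1 (sp (χ j)) s + P2 (sp (χ j)) s)) := by
      have r1 := hP1 s hs
      have r2 := hP2 s hs2
      rw [Fintype.sum_option, Fintype.sum_option] at r1 r2
      rw [he, r1, r2, Finset.sum_add_distrib]
      simp only [e', c', one_mul, neg_mul]
      ring
    rw [q1, Complex.exp_add, Complex.exp_add, Complex.exp_sum, Complex.exp_neg,
      ← (h6 (IntermediateField.fixedField N) (triv (IntermediateField.fixedField N))).2 s hs, ← (h6 (IntermediateField.fixedField H) (triv (IntermediateField.fixedField H))).2 s hs,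
      Finset.prod_congr rfl fun j _ => ((h6 (IntermediateField.fixedField H) (χ j)).2 s hs).symm, hE s hs, hF s hs,
      Finset.prod_congr rfl fun j _ => hG j s hs]
    have hne : Lc (triv (IntermediateField.fixedField N)) s ≠ 0 := by
      rw [(h6 (IntermediateField.fixedField N) (triv (IntermediateField.fixedField N))).2 s hs]
      exact Complex.exp_ne_zero _
    field_simp
    ring
  refine ⟨χ 0, B 0, G 0, ?_, hGd 0, hG 0, ?_⟩
  · intro p hp k hk
    have h9 := hB 0 p hp k hk
    rw [show ((0 : Fin (m + 1)) : ℕ) + 1 = 1 from rfl, e1] at h9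
    exact h9
  · intro t h0
    have hre : (1 + (t : ℂ) * I).re = 1 := by simp
    have hcont : ContinuousAt (fun s => (∏ j, G j s) * HF s - HE s * cexp (P1 e s + P2 e s))
        (1 + t * I) := by
      have c1 : ∀ j, ContinuousAt (G j) (1 + t * I) := fun j =>
        (hGd j _ (by rw [hre]; norm_num)).continuousAt
      have c2 : ContinuousAt HF (1 + t * I) := (hFd _ (by rw [hre]; norm_num)).continuousAt
      have c3 : ContinuousAt HE (1 + t * I) := (hEd _ (by rw [hre]; norm_num)).continuousAt
      have c4 : ContinuousAt (P1 e) (1 + t * I) := hent.continuous.continuousAt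
      have c5 : ContinuousAt (P2 e) (1 + t * I) := (hP2d _ (by rw [hre]; norm_num)).continuousAt
      refine ContinuousAt.sub (ContinuousAt.mul ?_ c2) (c3.mul (c4.add c5).cexp)
      exact tendsto_finsetProd _ fun j _ => c1 j
    have h9 := eq_zero_line hcont hid
    rw [Finset.prod_eq_zero (Finset.mem_univ (0 : Fin (m + 1))) h0, zero_mul, zero_sub,
      neg_eq_zero, mul_eq_zero] at h9
    rcases h9 with h9 | h9
    · exact hE0 t h9
    · exact Complex.exp_ne_zero _ h9

end Pool.Agent.H33.R2
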