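import Pool.Agent.H29.R2.Targets

/-!
# (RCT) the trivial character
-/

set_option autoImplicit false

open NumberField Complex Filter Topology

namespace Pool.Agent.H33.R2

open Pool.Agent.H29.R2 Pool.Agent.H28.RC Pool.Agent.H25.HK Pool.Agent.H25

/-- (RCT) -/
theorem pf_RCT (h : T_RC2) : T_RCT := by
  intro R H
  obtain ⟨B', hB'⟩ := h R.K H 1 (triv (IntermediateField.fixedField H)) ∅ (by
    intro P _ hP0 _ g hm _
    simp [triv, hP0])
  refine ⟨B', fun p hp k hk => ?_⟩
  rw [sp, if_neg (by omega)]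
  exact hB' p p.2 hp (R.P p) (R.P_prime p) (R.P_mem p) (R.Fr p) (R.Fr_spec p) k hk

end Pool.Agent.H33.R2
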